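import Pool.Agent.Helper2.NNQ.Stm
import Pool.Agent.Cov.PNT

/-!
Project NNQ (helper2): primes in `[Y, lam Y]`, from the prime number theorem.
-/

set_option autoImplicit false

open MeasureTheory Filter Topology Finset
open scoped Real

namespace Pool.Agent.Helper48.NNQ

open Pool.Agent.Helper2.NNQ

theorem theta_sub {a b : ℝ} (hab : ⌊a⌋₊ ≤ ⌊b⌋₊) : Chebyshev.theta b - Chebyshev.theta a =
    ∑ q ∈ (Finset.Ioc ⌊a⌋₊ ⌊b⌋₊).filter Nat.Prime, Real.log q := by
  have h := Finset.sum_Ioc_consecutive (fun q : ℕ => if q.Prime then Real.log q else 0)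
    (Nat.zero_le ⌊a⌋₊) hab
  unfold Chebyshev.theta
  rw [Finset.sum_filter, Finset.sum_filter, Finset.sum_filter]
  linarith

theorem t_PNTL : S_PNTL := by
  intro τ k hτ
  set η : ℝ := min τ 1 / 64 with hη
  have hη0 : 0 < η := by positivity
  have hητ : 64 * η ≤ τ := by
    have := min_le_left τ 1
    rw [hη]
    linarith
  have hη1 : η ≤ 1 / 64 := by
    have := min_le_right τ 1
    rw [hη]
    linarith
  obtain ⟨x0, hx0⟩ : ∃ x0 : ℝ, ∀ x, x0 ≤ x → (1 - η) * x ≤ Chebyshev.theta x ∧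
      Chebyshev.theta x ≤ (1 + η) * x := by
    have h1 := Pool.Agent.Cov.PNT.theta_div_tendsto
    have h2 : ∀ᶠ x : ℝ in atTop, Chebyshev.theta x / x ∈ Set.Icc (1 - η) (1 + η) :=
      h1 (Icc_mem_nhds (by linarith) (by linarith))
    obtain ⟨x1, hx1⟩ := eventually_atTop.1 h2
    refine ⟨max x1 1, fun x hx => ?_⟩
    have h3 := hx1 x ((le_max_left _ _).trans hx)
    have h4 : 0 < x := lt_of_lt_of_le one_pos ((le_max_right _ _).trans hx)
    exact ⟨(le_div_iff₀ h4).1 h3.1, (div_le_iff₀ h4).1 h3.2⟩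
  set κ : ℝ := |(k : ℝ)| with hκ
  have hκ0 : 0 ≤ κ := abs_nonneg _
  have hk1 : (k : ℝ) ≤ κ := le_abs_self _
  have hk2 : -κ ≤ (k : ℝ) := neg_abs_le _
  refine ⟨|x0| + 2 * κ + 17 + 16 * (1 + 2 * κ) / τ, fun Y lam hY hl1 hl3 => ?_⟩
  have hq : 0 ≤ 16 * (1 + 2 * κ) / τ := by positivity
  have hx0' := le_abs_self x0
  have hx0'' := abs_nonneg x0
  have hY1 : 16 ≤ Y := by linarith
  have hY2 : x0 ≤ Y + k := by linarith
  have hY3 : 1 ≤ Y + k := by linarith
  have hYκ : κ ≤ Y := by linarith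
  have hY4 : 16 * (1 + 2 * κ) ≤ τ * Y := by
    have : 16 * (1 + 2 * κ) / τ ≤ Y := by linarith
    rw [div_le_iff₀ hτ] at this
    linarith
  have hY0 : 0 < Y := by linarith
  have hlY : τ * Y ≤ (lam - 1) * Y := by
    apply mul_le_mul_of_nonneg_right _ hY0.le
    linarith
  have hab : Y + k ≤ lam * Y - 1 + k := by
    have : (lam - 1) * Y = lam * Y - Y := by ring
    nlinarith
  have h1 := (hx0 _ hY2).2
  have h2 := (hx0 _ (hY2.trans hab)).1
  have h3 := theta_sub (Nat.floor_mono hab)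
  set P := (Finset.Ioc ⌊Y + (k : ℝ)⌋₊ ⌊lam * Y - 1 + (k : ℝ)⌋₊).filter Nat.Prime with hP
  have hb0 : 0 ≤ lam * Y - 1 + k := by linarith
  have hlogb : Real.log (lam * Y - 1 + k) ≤ 3 / 2 * Real.log Y := by
    have e1 : lam * Y - 1 + k ≤ 4 * Y := by nlinarith
    have e2 : Real.log (lam * Y - 1 + k) ≤ Real.log (4 * Y) := Real.log_le_log (by linarith) e1
    rw [Real.log_mul (by norm_num) hY0.ne'] at e2
    have e3 : Real.log 4 ≤ 1 / 2 * Real.log Y := by
      have e4 : Real.log 16 ≤ Real.log Y := Real.log_le_log (by norm_num) hY1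
      have e5 : Real.log 16 = 2 * Real.log 4 := by
        rw [show (16 : ℝ) = 4 ^ 2 by norm_num, Real.log_pow]
        norm_num
      linarith
    linarith
  have hlogY : 0 < Real.log Y := Real.log_pos (by linarith)
  -- the sum over the primes
  have h4 : ∑ q ∈ P, Real.log q ≤ P.card * (3 / 2 * Real.log Y) := by
    rw [← nsmul_eq_mul]
    refine Finset.sum_le_card_nsmul _ _ _ fun q hq => ?_
    rw [hP, Finset.mem_filter, Finset.mem_Ioc] at hq
    have e1 : (q : ℝ) ≤ lam * Y - 1 + k := (Nat.le_floor_iff hb0).1 hq.1.2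
    have e2 : (0 : ℝ) < q := by exact_mod_cast hq.2.pos
    exact (Real.log_le_log e2 e1).trans hlogb
  have h5 : 7 / 8 * ((lam - 1) * Y) ≤ ∑ q ∈ P, Real.log q := by
    rw [← h3]
    have e1 : η * (lam * Y) ≤ η * (3 * Y) := by
      apply mul_le_mul_of_nonneg_left _ hη0.le
      nlinarith
    have e2 : 64 * (η * Y) ≤ τ * Y := by nlinarith
    have e3 : η * k ≤ κ := by nlinarith
    have e4 : (lam - 1) * Y = lam * Y - Y := by ring
    nlinarith
  -- the number of the primes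
  have h6 : (P.card : ℝ) ≤
      ({v : ℤ | Y ≤ v ∧ (v : ℝ) + 1 ≤ lam * Y ∧ (v + k).toNat.Prime}.ncard : ℝ) := by
    have hfin : {v : ℤ | Y ≤ v ∧ (v : ℝ) + 1 ≤ lam * Y ∧ (v + k).toNat.Prime}.Finite := by
      refine (Set.finite_Icc ⌈Y⌉ ⌊lam * Y⌋).subset ?_
      rintro v ⟨hv1, hv2, -⟩
      exact ⟨Int.ceil_le.2 hv1, Int.le_floor.2 (by linarith)⟩
    have hinj : Function.Injective (fun q : ℕ => (q : ℤ) - k) := by
      intro a b hab
      have : (a : ℤ) - k = b - k := hab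
      exact_mod_cast sub_left_injective this
    have hsub : (fun q : ℕ => (q : ℤ) - k) '' (P : Set ℕ) ⊆
        {v : ℤ | Y ≤ v ∧ (v : ℝ) + 1 ≤ lam * Y ∧ (v + k).toNat.Prime} := by
      rintro v ⟨q, hq, rfl⟩
      rw [hP, Finset.mem_coe, Finset.mem_filter, Finset.mem_Ioc] at hq
      have e1 : (q : ℝ) ≤ lam * Y - 1 + k := (Nat.le_floor_iff hb0).1 hq.1.2
      have e2 : Y + k < q := Nat.lt_of_floor_lt hq.1.1
      refine ⟨?_, ?_, ?_⟩
      · push_cast
        linarith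
      · push_cast
        linarith
      · rw [sub_add_cancel, Int.toNat_natCast]
        exact hq.2
    have := Set.ncard_le_ncard hsub hfin
    rw [Set.ncard_image_of_injective _ hinj, Set.ncard_coe_finset] at this
    exact_mod_cast this
  refine le_trans ?_ h6
  rw [div_le_iff₀ hlogY]
  have h7 : 0 ≤ (lam - 1) * Y := by nlinarith
  nlinarith

end Pool.Agent.Helper48.NNQ
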